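import Mathlib

set_option autoImplicit false

namespace Pool.Agent.Results.MP_dcc435_co.Rational

open Matrix

/-- `X` is a psd completion of the edge values `x i` on the edges `{i, i+1}` of the 5-cycle. -/
def Completion (x : Fin 5 → ℝ) (X : Matrix (Fin 5) (Fin 5) ℝ) : Prop :=
  X.PosSemidef ∧ (∀ i, X i i = 1) ∧ ∀ i, X i (i + 1) = x i

theorem two_int {m m' A A' p : ℝ} (h : (p - m) ^ 2 ≤ A) (h' : (p - m') ^ 2 ≤ A') :
    (∃ r : ℚ, (r - m) ^ 2 ≤ A ∧ (r - m') ^ 2 ≤ A') ∨ A = 0 ∨ A' = 0 ∨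
      ((p - m) ^ 2 = A ∧ (p - m') ^ 2 = A') := by
  obtain ⟨s, hs, rfl⟩ : ∃ s, 0 ≤ s ∧ A = s ^ 2 :=
    ⟨√A, Real.sqrt_nonneg _, (Real.sq_sqrt ((sq_nonneg _).trans h)).symm⟩
  obtain ⟨t, ht, rfl⟩ : ∃ s, 0 ≤ s ∧ A' = s ^ 2 :=
    ⟨√A', Real.sqrt_nonneg _, (Real.sq_sqrt ((sq_nonneg _).trans h')).symm⟩
  obtain ⟨h1, h2⟩ := abs_le_of_sq_le_sq' h hs
  obtain ⟨h3, h4⟩ := abs_le_of_sq_le_sq' h' ht
  rcases hs.eq_or_lt with rfl | hs'
  · simp
  rcases ht.eq_or_lt with rfl | ht'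
  · simp
  by_cases h5 : max (m - s) (m' - t) < min (m + s) (m' + t)
  · obtain ⟨r, h6, h7⟩ := exists_rat_btwn h5
    rw [max_lt_iff] at h6
    rw [lt_min_iff] at h7
    exact Or.inl ⟨r, sq_le_sq' (by linarith [h6.1]) (by linarith [h7.1]),
      sq_le_sq' (by linarith [h6.2]) (by linarith [h7.2])⟩
  · refine Or.inr (Or.inr (Or.inr ?_))
    rw [not_lt, min_le_iff, le_max_iff, le_max_iff] at h5
    rcases h5 with (h5 | h5) | (h5 | h5)
    · linarith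
    · rw [show p - m = s by linarith, show p - m' = -t by linarith]
      simp
    · rw [show p - m = -s by linarith, show p - m' = t by linarith]
      simp
    · linarith

theorem two_rat {m m' A A' : ℚ} {p : ℝ} (h : (p - m) ^ 2 ≤ A) (h' : (p - m') ^ 2 ≤ A') :
    ∃ r : ℚ, (r - m) ^ 2 ≤ A ∧ (r - m') ^ 2 ≤ A' := by
  have key : (∃ r : ℚ, (r : ℝ) = p) → ∃ r : ℚ, (r - m) ^ 2 ≤ A ∧ (r - m') ^ 2 ≤ A' := by
    rintro ⟨r, rfl⟩
    exact ⟨r, by exact_mod_cast h, by exact_mod_cast h'⟩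
  rcases two_int h h' with ⟨r, h1, h2⟩ | h1 | h1 | ⟨h1, h2⟩
  · exact ⟨r, by exact_mod_cast h1, by exact_mod_cast h2⟩
  · exact key ⟨m, by nlinarith [sq_nonneg (p - m)]⟩
  · exact key ⟨m', by nlinarith [sq_nonneg (p - m')]⟩
  · by_cases h3 : m = m'
    · subst h3
      have h4 : (0 : ℝ) ≤ A := (sq_nonneg _).trans h
      have h5 : (0 : ℝ) ≤ A' := (sq_nonneg _).trans h'
      exact ⟨m, by simpa using h4, by simpa using h5⟩
    · have h4 : (m' : ℝ) - m ≠ 0 := sub_ne_zero.2 (by exact_mod_cast Ne.symm h3)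
      refine key ⟨(A - A' - m ^ 2 + m' ^ 2) / (2 * (m' - m)), ?_⟩
      push_cast
      field_simp
      linarith

/-- Two chord values compatible with three triangles can be chosen rational. -/
theorem chords {m m' A A' c : ℚ} {p q : ℝ} (hc1 : (c : ℝ) ^ 2 ≤ 1)
    (hp : (p - m) ^ 2 ≤ A) (hq : (q - m') ^ 2 ≤ A')
    (hT : (p - c * q) ^ 2 ≤ (1 - c ^ 2) * (1 - q ^ 2)) :
    ∃ r s : ℚ, (r - m) ^ 2 ≤ A ∧ (s - m') ^ 2 ≤ A' ∧
      (r - c * s) ^ 2 ≤ (1 - c ^ 2) * (1 - s ^ 2) := by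
  have kp : ∀ (r : ℚ) (q : ℝ), (r - m : ℝ) ^ 2 ≤ A → (q - m') ^ 2 ≤ A' →
      (r - c * q) ^ 2 ≤ (1 - c ^ 2) * (1 - q ^ 2) → ∃ r s : ℚ, (r - m) ^ 2 ≤ A ∧
      (s - m') ^ 2 ≤ A' ∧ (r - c * s) ^ 2 ≤ (1 - c ^ 2) * (1 - s ^ 2) := by
    intro r q h1 h2 h3
    obtain ⟨s, h4, h5⟩ := two_rat (m' := c * r) (A' := (1 - c ^ 2) * (1 - r ^ 2)) h2
      (by push_cast; linarith)
    exact ⟨r, s, by exact_mod_cast h1, h4, by linarith⟩
  have kq : ∀ (s : ℚ) (p : ℝ), (p - m) ^ 2 ≤ A → (s - m' : ℝ) ^ 2 ≤ A' →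
      (p - c * s) ^ 2 ≤ (1 - c ^ 2) * (1 - s ^ 2) → ∃ r s : ℚ, (r - m) ^ 2 ≤ A ∧
      (s - m') ^ 2 ≤ A' ∧ (r - c * s) ^ 2 ≤ (1 - c ^ 2) * (1 - s ^ 2) := by
    intro s p h1 h2 h3
    obtain ⟨r, h4, h5⟩ := two_rat (m' := c * s) (A' := (1 - c ^ 2) * (1 - s ^ 2)) h1
      (by push_cast; exact h3)
    exact ⟨r, s, h4, by exact_mod_cast h2, h5⟩
  by_cases hpr : ∃ r : ℚ, (r : ℝ) = p
  · obtain ⟨r, rfl⟩ := hpr
    exact kp r q hp hq hT
  by_cases hqr : ∃ s : ℚ, (s : ℝ) = q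
  · obtain ⟨s, rfl⟩ := hqr
    exact kq s p hp hq hT
  by_cases hc : c ^ 2 = 1
  · have hc' : (c : ℝ) ^ 2 = 1 := by exact_mod_cast hc
    have h1 : p = c * q := by nlinarith [sq_nonneg (p - c * q)]
    obtain ⟨s, h2, h3⟩ := two_rat (m' := c * m) (A' := A) hq (by
      push_cast
      rw [h1] at hp
      calc _ = (c * q - m) ^ 2 := by linear_combination (m ^ 2 - q ^ 2) * hc'
        _ ≤ _ := hp)
    refine ⟨c * s, s, ?_, h2, by simp [hc]⟩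
    calc _ = (s - c * m) ^ 2 := by linear_combination (s ^ 2 - m ^ 2) * hc
      _ ≤ _ := h3
  have hc' : (1 : ℝ) - c ^ 2 ≠ 0 := sub_ne_zero.2 (by exact_mod_cast Ne.symm hc)
  have unit : ∀ y : ℝ, (¬ ∃ r : ℚ, (r : ℝ) = y) → (1 - (c : ℝ) ^ 2) * (1 - y ^ 2) ≠ 0 := by
    intro y hy h0
    rcases sq_eq_one_iff.1 (sub_eq_zero.1 ((mul_eq_zero.1 h0).resolve_left hc')).symm
      with h1 | h1
    · exact hy ⟨1, by simp [h1]⟩
    · exact hy ⟨-1, by simp [h1]⟩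
  rcases two_int hp hT with ⟨r, h1, h2⟩ | h1 | h1 | ⟨h1, h2⟩
  · exact kp r q h1 hq h2
  · exact absurd ⟨m, by nlinarith [sq_nonneg (p - m)]⟩ hpr
  · exact absurd h1 (unit q hqr)
  rcases two_int (m' := c * p) (A' := (1 - c ^ 2) * (1 - p ^ 2)) hq (by linarith) with
    ⟨s, h3, h4⟩ | h3 | h3 | ⟨h3, -⟩
  · exact kq s p hp h3 (by linarith)
  · exact absurd ⟨m', by nlinarith [sq_nonneg (q - m')]⟩ hqr
  · exact absurd h3 (unit p hpr)
  -- both chords sit at irrational end points: conjugate, then take the midpoint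
  obtain ⟨u, rfl⟩ : ∃ u, p = m + u := ⟨p - m, by ring⟩
  obtain ⟨v, rfl⟩ : ∃ v, q = m' + v := ⟨q - m', by ring⟩
  rw [add_sub_cancel_left] at h1 h3
  set α : ℚ := 1 - c ^ 2 - m ^ 2 - A - m' ^ 2 - A' + 2 * c * m * m' with hα
  set β : ℚ := 2 * c * m' - 2 * m with hβ
  set γ : ℚ := 2 * c * m - 2 * m' with hγ
  set δ : ℚ := 2 * c with hδ
  have e1 : α + β * u = -(v * (γ + δ * u)) := by
    simp only [hα, hβ, hγ, hδ]
    push_cast
    linear_combination -h2 + h1 + h3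
  have e2 : ((α ^ 2 + β ^ 2 * A - A' * (γ ^ 2 + δ ^ 2 * A) : ℚ) : ℝ) +
      ((2 * α * β - 2 * A' * γ * δ : ℚ) : ℝ) * u = 0 := by
    push_cast
    rw [← h1, ← h3]
    linear_combination (α + β * u - v * (γ + δ * u)) * e1
  have e3 : 2 * α * β - 2 * A' * γ * δ = 0 := by
    by_contra h0
    have h0' : ((2 * α * β - 2 * A' * γ * δ : ℚ) : ℝ) ≠ 0 := by exact_mod_cast h0
    refine hpr ⟨m - (α ^ 2 + β ^ 2 * A - A' * (γ ^ 2 + δ ^ 2 * A)) /
      (2 * α * β - 2 * A' * γ * δ), ?_⟩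
    rw [Rat.cast_sub, Rat.cast_div, sub_eq_add_neg, add_right_inj, ← neg_div, div_eq_iff h0']
    linarith
  have e4 : (α - β * u) ^ 2 = (v * (γ - δ * u)) ^ 2 := by
    have e5 : ((2 * α * β - 2 * A' * γ * δ : ℚ) : ℝ) = 0 := by exact_mod_cast e3
    push_cast at e2 e5
    rw [← h1, ← h3] at e2
    rw [← h3] at e5
    linear_combination e2 - 2 * u * e5
  obtain ⟨w, hw, e6⟩ : ∃ w : ℝ, w ^ 2 = A' ∧ α - β * u = -(w * (γ - δ * u)) := by
    rcases sq_eq_sq_iff_eq_or_eq_neg.1 e4 with h | h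
    · exact ⟨-v, by rw [← h3]; ring, by linarith⟩
    · exact ⟨v, h3, h⟩
  have e7 : (m - u - c * (m' + w)) ^ 2 = (1 - c ^ 2) * (1 - (m' + w) ^ 2) := by
    simp only [hα, hβ, hγ, hδ] at e6
    push_cast at e6
    linear_combination -e6 + h1 + hw
  refine kp m (m' + (v + w) / 2) (by simpa using (sq_nonneg _).trans hp)
    (by nlinarith [sq_nonneg (v - w)]) ?_
  nlinarith [sq_nonneg (2 * u - c * (v - w)), mul_nonneg (sub_nonneg.2 hc1) (sq_nonneg (v - w))]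

theorem attach {a y z : ℚ} (ha : a ^ 2 ≤ 1) (hy : y ^ 2 ≤ 1)
    (h : (a - y * z) ^ 2 ≤ (1 - y ^ 2) * (1 - z ^ 2)) :
    ∃ l k : ℚ, l + k * a = y ∧ l * a + k = z ∧ l * y + k * z ≤ 1 := by
  rcases ha.eq_or_lt with h1 | h1
  · have h2 : y = a * z := by nlinarith [sq_nonneg (y - a * z)]
    exact ⟨y, 0, by ring, by rw [h2]; linear_combination z * h1, by nlinarith⟩
  · have h2 : 0 < 1 - a ^ 2 := by linarith
    refine ⟨(y - a * z) / (1 - a ^ 2), (z - a * y) / (1 - a ^ 2), ?_, ?_, ?_⟩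
    · field_simp
      ring
    · field_simp
      ring
    · rw [div_mul_eq_mul_div, div_mul_eq_mul_div, ← add_div, div_le_one h2]
      linarith

theorem le_one {a y z : ℚ} (hy : y ^ 2 ≤ 1) (hz : z ^ 2 ≤ 1)
    (h : (a - y * z) ^ 2 ≤ (1 - y ^ 2) * (1 - z ^ 2)) : a ^ 2 ≤ 1 := by
  rcases hz.eq_or_lt with h1 | h1
  · have h2 : a = y * z := by nlinarith [sq_nonneg (a - y * z)]
    rw [h2, mul_pow, h1, mul_one]
    exact hy
  · by_contra h2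
    nlinarith [mul_pos (sub_pos.2 (not_le.1 h2)) (sub_pos.2 h1), sq_nonneg (y - a * z)]

theorem sq_le {x : Fin 5 → ℝ} {X : Matrix (Fin 5) (Fin 5) ℝ} (h : Completion x X)
    (i j : Fin 5) : X i j ^ 2 ≤ 1 := by
  have h1 := (h.1.submatrix ![i, j]).det_nonneg
  have h2 : X j i = X i j := by simpa using h.1.1.apply i j
  simp only [det_fin_two, submatrix_apply, cons_val_zero, cons_val_one, h.2.1, h2] at h1
  linarith

theorem tri {x : Fin 5 → ℝ} {X : Matrix (Fin 5) (Fin 5) ℝ} (h : Completion x X)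
    (i j k : Fin 5) : (X i k - X i j * X j k) ^ 2 ≤ (1 - X i j ^ 2) * (1 - X j k ^ 2) := by
  have h1 := (h.1.submatrix ![i, j, k]).det_nonneg
  have h2 : ∀ i j, X j i = X i j := fun i j => by simpa using h.1.1.apply i j
  simp only [det_fin_three, submatrix_apply, cons_val_zero, cons_val_one, cons_val_two,
    head_cons, tail_cons, h.2.1, h2 i j, h2 j k, h2 i k] at h1
  linarith

theorem result (x : Fin 5 → ℚ) (h : ∃ X, Completion (fun i => (x i : ℝ)) X) :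
    ∃ Y : Matrix (Fin 5) (Fin 5) ℚ, Completion (fun i => (x i : ℝ)) (Y.map (↑)) := by
  obtain ⟨X, hX⟩ := h
  have e0 : X 0 1 = x 0 := hX.2.2 0
  have e1 : X 1 2 = x 1 := hX.2.2 1
  have e2 : X 2 3 = x 2 := hX.2.2 2
  have e3 : X 3 4 = x 3 := hX.2.2 3
  have e4 : X 4 0 = x 4 := hX.2.2 4
  have s : ∀ i j, X j i = X i j := fun i j => by simpa using hX.1.1.apply i j
  have b : ∀ i, x i ^ 2 ≤ 1 := fun i => by
    have := sq_le hX i (i + 1)
    rw [hX.2.2 i] at this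
    have h0 : (x i : ℝ) ^ 2 ≤ 1 := this
    exact_mod_cast h0
  have t1 := tri hX 0 1 2
  have t2 := tri hX 0 4 3
  have t3 := tri hX 2 3 0
  rw [e0, e1] at t1
  rw [s 4 0, s 3 4, e4, e3] at t2
  rw [s 0 2, s 0 3, e2] at t3
  obtain ⟨p, q, h1, h2, h3⟩ := chords (m := x 0 * x 1) (m' := x 4 * x 3) (c := x 2)
    (A := (1 - x 0 ^ 2) * (1 - x 1 ^ 2)) (A' := (1 - x 4 ^ 2) * (1 - x 3 ^ 2))
    (by exact_mod_cast b 2) (by push_cast; exact t1) (by push_cast; exact t2) t3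
  have hp : p ^ 2 ≤ 1 := le_one (b 0) (b 1) h1
  have hq : q ^ 2 ≤ 1 := le_one (b 4) (b 3) h2
  obtain ⟨l1, k1, a1, a2, a3⟩ := attach hp (b 0) h1
  obtain ⟨l3, k3, c1, c2, c3⟩ := attach (y := q) (z := x 2) hp hq (by linarith)
  obtain ⟨l4, k4, d1, d2, d3⟩ := attach hq (b 4) h2
  let L : Matrix (Fin 5) (Fin 5) ℚ :=
    !![1, 0, 0, 0, 0; x 0, 1, k1, 0, 0; p, 0, 1, 0, 0; q, 0, k3, 1, 0; x 4, 0, k4 * k3, k4, 1]
  let d : Fin 5 → ℚ := ![1, 1 - (l1 * x 0 + k1 * x 1), 1 - p ^ 2, 1 - (l3 * q + k3 * x 2),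
    1 - (l4 * x 4 + k4 * x 3)]
  have hd : ∀ i, 0 ≤ d i := fun i => by
    fin_cases i
    exacts [zero_le_one, sub_nonneg.2 a3, sub_nonneg.2 hp, sub_nonneg.2 c3, sub_nonneg.2 d3]
  have en : ∀ i j, (L * diagonal d * Lᵀ) i j = ∑ k, L i k * d k * L j k := fun i j => by
    rw [mul_apply]
    simp only [mul_diagonal, transpose_apply]
  refine ⟨L * diagonal d * Lᵀ, ?_, fun i => ?_, fun i => ?_⟩
  · have h4 : (L * diagonal d * Lᵀ).map ((↑) : ℚ → ℝ) =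
        L.map (↑) * diagonal (fun i => (d i : ℝ)) * (L.map (↑))ᴴ := by
      ext i j
      rw [map_apply, en, mul_apply]
      simp [mul_diagonal]
    rw [h4]
    exact (posSemidef_diagonal_iff.2 fun i => by exact_mod_cast hd i).mul_mul_conjTranspose_same _
  · rw [map_apply, en, ← Rat.cast_one, Rat.cast_inj]
    fin_cases i <;> simp [L, d, Fin.sum_univ_five]
    all_goals (try simp only [← a1, ← a2, ← c2, ← d1, ← d2, ← c1]); ring
  · rw [map_apply, en, Rat.cast_inj]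
    fin_cases i <;> simp [L, d, Fin.sum_univ_five]
    all_goals (try simp only [← a1, ← a2, ← c2, ← d1, ← d2, ← c1]); ring

end Pool.Agent.Results.MP_dcc435_co.Rational
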